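import Pool.Agent.H.MP_4e44b6_al.I

namespace Pool.Agent.Results.MP_4e44b6_al.Quat

open Set Quaternion

/-- The free associative algebra `ℝ⟨x₁, …, x_m⟩`: real combinations of words in `m` letters. -/
abbrev NC (m : ℕ) := MonoidAlgebra ℝ (FreeMonoid (Fin m))

/-- Evaluation `p(a₁, …, a_m)` at quaternions. -/
noncomputable def ev {m : ℕ} (p : NC m) (a : Fin m → ℍ[ℝ]) : ℍ[ℝ] :=
  MonoidAlgebra.lift ℝ ℍ[ℝ] (FreeMonoid (Fin m)) (FreeMonoid.lift a) p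

/-- Semihomogeneous: non-negative integer weights `w` and an integer `d ≠ 0` such that every
monomial occurring in `p` has weighted degree `d`. -/
def SemiHom {m : ℕ} (p : NC m) : Prop :=
  ∃ (w : Fin m → ℕ) (d : ℤ), d ≠ 0 ∧ ∀ u ∈ p.coeff.support, (((u.toList.map w).sum : ℕ) : ℤ) = d

/-- Admissible sets of cosines `Re q / ‖q‖`: a subset of `{-1, 1}`, or `{0}`, or a finite union of
nondegenerate intervals in `[-1, 1]` whose set of squares has closure `[0, γ]` or `[γ, 1]`. -/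
def Adm (C : Set ℝ) : Prop :=
  C ⊆ {-1, 1} ∨ C = {0} ∨
    (C ⊆ Icc (-1) 1 ∧
      (∃ F : Set (Set ℝ), F.Finite ∧ (∀ I ∈ F, I.OrdConnected ∧ I.Nontrivial) ∧ ⋃₀ F = C) ∧
      ∃ γ : ℝ, closure ((fun c => c ^ 2) '' C) = Icc 0 γ ∨ closure ((fun c => c ^ 2) '' C) = Icc γ 1)

theorem result (S : Set ℍ[ℝ]) :
    (∃ (m : ℕ) (p : NC m), SemiHom p ∧ range (ev p) = S) ↔
      ∃ C : Set ℝ, Adm C ∧ S = {0} ∪ {q | q ≠ 0 ∧ q.re / ‖q‖ ∈ C} :=
  Pool.Agent.H.MP_4e44b6_al.main S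

end Pool.Agent.Results.MP_4e44b6_al.Quat
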